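import Mathlib
import Pool.Agent.N549.AB.Stm2
import Pool.Agent.N424.SG.Locs

/-!
# AB/LENSS (helper519, for helper549): the intersection of two caps with far centres
-/

set_option autoImplicit false

open MeasureTheory Set Filter
open scoped ENNReal RealInnerProductSpace

namespace Pool.Agent.N519.DC

open Pool.Agent.N303.SH (E S S_norm)
open Pool.Agent.N549.SG
open Pool.Agent.N424.SG (sig_near)
open Pool.Agent.N549.AB (S_LENSS)

theorem lenss : S_LENSS := by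
  intro c t ht _ u v huv
  rcases Set.eq_empty_or_nonempty (near (c + 2) t u ∩ near (c + 2) t v) with h0 | ⟨y₀, hy₀⟩
  · rw [h0, measure_empty]
    exact zero_le
  obtain ⟨a, ha⟩ : ∃ a, a = ⟪(u : E (c + 2)), (v : E (c + 2))⟫ := ⟨_, rfl⟩
  have hat : a ≤ t := by rw [ha]; exact huv
  have hn : ‖(u : E (c + 2)) + v‖ ^ 2 = 2 + 2 * a := by
    rw [norm_add_sq_real, S_norm, S_norm, ← ha]
    ring
  have h1 : t < ⟪(u : E (c + 2)), (y₀ : E (c + 2))⟫ := hy₀.1
  have h2 : t < ⟪(v : E (c + 2)), (y₀ : E (c + 2))⟫ := hy₀.2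
  have hne : (u : E (c + 2)) + v ≠ 0 := by
    intro h
    have h3 : ⟪(u : E (c + 2)) + v, (y₀ : E (c + 2))⟫ = 0 := by rw [h, inner_zero_left]
    rw [inner_add_left] at h3
    linarith
  have hpos2 : 0 < 2 + 2 * a := by
    rw [← hn]
    exact pow_pos (norm_pos_iff.2 hne) 2
  have hn2 : ‖(u : E (c + 2)) + v‖ = Real.sqrt (2 + 2 * a) := by
    rw [← hn, Real.sqrt_sq (norm_nonneg _)]
  have hpos : 0 < Real.sqrt (2 + 2 * a) := Real.sqrt_pos.2 hpos2
  have hw : (Real.sqrt (2 + 2 * a))⁻¹ • ((u : E (c + 2)) + v) ∈ Metric.sphere (0 : E (c + 2)) 1 := by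
    rw [mem_sphere_zero_iff_norm, norm_smul, hn2, Real.norm_eq_abs, abs_of_pos (inv_pos.2 hpos),
      inv_mul_cancel₀ hpos.ne']
  obtain ⟨w, hww⟩ : ∃ w : S (c + 2), (w : E (c + 2)) =
      (Real.sqrt (2 + 2 * a))⁻¹ • ((u : E (c + 2)) + v) := ⟨⟨_, hw⟩, rfl⟩
  rw [← sig_near c _ w]
  apply measure_mono
  rintro y ⟨hy1, hy2⟩
  have g1 : t < ⟪(u : E (c + 2)), (y : E (c + 2))⟫ := hy1
  have g2 : t < ⟪(v : E (c + 2)), (y : E (c + 2))⟫ := hy2
  show t / Real.sqrt ((1 + t) / 2) < ⟪(w : E (c + 2)), (y : E (c + 2))⟫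
  rw [hww, inner_smul_left, inner_add_left, conj_trivial, inv_mul_eq_div, lt_div_iff₀ hpos]
  have h5 : Real.sqrt (2 + 2 * a) ≤ 2 * Real.sqrt ((1 + t) / 2) := by
    have h6 : 2 * Real.sqrt ((1 + t) / 2) = Real.sqrt (2 + 2 * t) := by
      rw [show 2 + 2 * t = 2 ^ 2 * ((1 + t) / 2) by ring, Real.sqrt_mul (by norm_num),
        Real.sqrt_sq (by norm_num)]
    rw [h6]
    exact Real.sqrt_le_sqrt (by linarith)
  have h7 : 0 < Real.sqrt ((1 + t) / 2) := Real.sqrt_pos.2 (by linarith)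
  have h8 : t / Real.sqrt ((1 + t) / 2) * Real.sqrt (2 + 2 * a) ≤ 2 * t := by
    calc t / Real.sqrt ((1 + t) / 2) * Real.sqrt (2 + 2 * a)
        ≤ t / Real.sqrt ((1 + t) / 2) * (2 * Real.sqrt ((1 + t) / 2)) :=
          mul_le_mul_of_nonneg_left h5 (div_pos ht h7).le
      _ = 2 * t := by field_simp
  linarith

end Pool.Agent.N519.DC
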